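import Pool.Agent.Q110.UqPair

/-!
# A real Leonard pair without an equitable module

Negative answer to Q1 of MP_32472a_al, over the real numbers, with diameter three and `q = 2`.
-/

set_option autoImplicit false

open Matrix

namespace Pool.Agent.Results.MP_32472a_al.RealCounterexample

open Pool.Agent.Q110.Uq Pool.Agent.Q110.UqPair

variable {K : Type*} [Field K] {V : Type*} [AddCommGroup V] [Module K V]

/-- An irreducible tridiagonal matrix. -/
def IsIrredTridiagonal {n : ℕ} (M : Matrix (Fin n) (Fin n) K) : Prop :=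
  (∀ i j : Fin n, (i.val + 1 < j.val ∨ j.val + 1 < i.val) → M i j = 0) ∧
    ∀ i j : Fin n, (i.val + 1 = j.val ∨ j.val + 1 = i.val) → M i j ≠ 0

/-- There is a basis of eigenvectors of `A` in which `B` is irreducible tridiagonal and the
corresponding eigenvalues satisfy `θ (i-2) - θ (i+1) = (β + 1) (θ (i-1) - θ i)`. -/
def HasBasis (β : K) (A B : V →ₗ[K] V) : Prop :=
  ∃ (n : ℕ) (b : Module.Basis (Fin n) K V) (θ : Fin n → K), (∀ i, A (b i) = θ i • b i) ∧
    IsIrredTridiagonal (LinearMap.toMatrix b b B) ∧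
    ∀ i j k l : Fin n, j.val = i.val + 1 → k.val = i.val + 2 → l.val = i.val + 3 →
      θ i - θ l = (β + 1) * (θ j - θ k)

/-- `A, B` is a Leonard pair and `β + 1` is the common value of the ratios. -/
def IsLeonardPair (β : K) (A B : V →ₗ[K] V) : Prop := HasBasis β A B ∧ HasBasis β B A

/-- The maps `X, X', Y, Z` define an irreducible module structure for the equitable presentation of
`U_q(sl_2)` on `V`, where `X'` is the action of the inverse of `X`. -/
def IsIrredModule (q : K) (X X' Y Z : V →ₗ[K] V) : Prop :=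
  X * X' = 1 ∧ X' * X = 1 ∧
    (q - q⁻¹)⁻¹ • (q • (X * Y) - q⁻¹ • (Y * X)) = 1 ∧
    (q - q⁻¹)⁻¹ • (q • (Y * Z) - q⁻¹ • (Z * Y)) = 1 ∧
    (q - q⁻¹)⁻¹ • (q • (Z * X) - q⁻¹ • (X * Z)) = 1 ∧
    Nontrivial V ∧ ∀ W : Submodule K V, (∀ w ∈ W, X w ∈ W) → (∀ w ∈ W, X' w ∈ W) →
      (∀ w ∈ W, Y w ∈ W) → (∀ w ∈ W, Z w ∈ W) → W = ⊥ ∨ W = ⊤

/-- `T` is a linear combination of `I, P, Q, PQ`. -/
def IsComb (T P Q : V →ₗ[K] V) : Prop :=
  ∃ a b c d : K, T = a • 1 + b • P + c • Q + d • (P * Q)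

def PB : Matrix (Fin 4) (Fin 4) ℝ := !![4, -1, 1, -4; 21, -1, -1, 21; 21, 1, -1, -21; 4, 1, 1, 4]

noncomputable def QB : Matrix (Fin 4) (Fin 4) ℝ :=
  !![1/50, 1/50, 1/50, 1/50; -21/50, -2/25, 2/25, 21/50; 21/50, -2/25, -2/25, 21/50;
    -1/50, 1/50, -1/50, 1/50]

def AB : Matrix (Fin 4) (Fin 4) ℝ := !![0, -1, 0, 0; -84, 0, -17, 0; 0, -17, 0, -84; 0, 0, -1, 0]

theorem QP : QB * PB = 1 := by
  ext i j
  fin_cases i <;> fin_cases j <;> simp [PB, QB, Matrix.mul_apply, Fin.sum_univ_four] <;> norm_num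

theorem PQ : PB * QB = 1 := mul_eq_one_comm.1 QP

theorem BP : mB ℝ * PB = PB * Matrix.diagonal ![21, 4, -4, -21] := by
  ext i j
  rw [Matrix.mul_diagonal]
  fin_cases i <;> fin_cases j <;> simp [PB, mB, Matrix.mul_apply, Fin.sum_univ_four] <;> norm_num

theorem AP : mA ℝ * PB = PB * AB := by
  ext i j
  fin_cases i <;> fin_cases j <;> simp [PB, mA, AB, Matrix.mul_apply, Fin.sum_univ_four] <;>
    norm_num

theorem leonard : IsLeonardPair (17 / 4) (Matrix.toLin' (mA ℝ)) (Matrix.toLin' (mB ℝ)) := by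
  constructor
  · refine ⟨4, Pi.basisFun ℝ (Fin 4), ![21, 4, -4, -21], ?_, ?_, ?_⟩
    · intro i
      rw [Matrix.toLin'_apply, Pi.basisFun_apply]
      ext j
      fin_cases i <;> fin_cases j <;> simp [mA, Matrix.mulVec, dotProduct, Fin.sum_univ_four]
    · have h : LinearMap.toMatrix (Pi.basisFun ℝ (Fin 4)) (Pi.basisFun ℝ (Fin 4))
          (Matrix.toLin' (mB ℝ)) = mB ℝ := by
        rw [LinearMap.toMatrix_eq_toMatrix', LinearMap.toMatrix'_toLin']
      rw [h]
      constructor <;> intro i j hij <;> fin_cases i <;> fin_cases j <;> simp_all [mB]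
    · intro i j k l hj hk hl
      have h0 : i = 0 := by
        have := l.2
        ext
        simp
        omega
      have h1 : j = 1 := by
        ext
        simp [hj, h0]
      have h2 : k = 2 := by
        ext
        simp [hk, h0]
      have h3 : l = 3 := by
        ext
        simp [hl, h0]
      rw [h0, h1, h2, h3]
      simp
      norm_num
  · let b : Module.Basis (Fin 4) ℝ (Fin 4 → ℝ) :=
      (Pi.basisFun ℝ (Fin 4)).map (Matrix.toLin'OfInv QP PQ)
    have hb : ∀ j, b j = PB *ᵥ (Pi.single j 1) := by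
      intro j
      simp only [b, Module.Basis.map_apply, Pi.basisFun_apply]
      rfl
    have h : LinearMap.toMatrix b b (Matrix.toLin' (mA ℝ)) = AB := by
      ext i j
      rw [LinearMap.toMatrix_apply, hb]
      simp only [b, Module.Basis.map_repr, LinearEquiv.trans_apply]
      simp only [Pi.basisFun_repr, Matrix.toLin'_apply]
      change (QB *ᵥ (mA ℝ *ᵥ (PB *ᵥ Pi.single j 1))) i = _
      have e : mA ℝ *ᵥ (PB *ᵥ Pi.single j 1) = PB *ᵥ (AB *ᵥ Pi.single j 1) := by
        rw [Matrix.mulVec_mulVec, AP, ← Matrix.mulVec_mulVec]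
      rw [e, Matrix.mulVec_mulVec, QP, Matrix.one_mulVec, Matrix.mulVec_single_one]
      rfl
    refine ⟨4, b, ![21, 4, -4, -21], ?_, ?_, ?_⟩
    · intro i
      rw [Matrix.toLin'_apply, hb, Matrix.mulVec_mulVec, BP]
      ext j
      fin_cases i <;> fin_cases j <;>
        simp [PB, Matrix.mulVec, dotProduct, Fin.sum_univ_four] <;> norm_num
    · rw [h]
      constructor <;> intro i j hij <;> fin_cases i <;> fin_cases j <;> simp_all [AB]
    · intro i j k l hj hk hl
      have h0 : i = 0 := by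
        have := l.2
        ext
        simp
        omega
      have h1 : j = 1 := by
        ext
        simp [hj, h0]
      have h2 : k = 2 := by
        ext
        simp [hk, h0]
      have h3 : l = 3 := by
        ext
        simp [hl, h0]
      rw [h0, h1, h2, h3]
      simp
      norm_num

/-- The scalar extension of a real operator. -/
noncomputable def ext (T : (Fin 4 → ℝ) →ₗ[ℝ] (Fin 4 → ℝ)) : (Fin 4 → ℂ) →ₗ[ℂ] (Fin 4 → ℂ) :=
  Matrix.toLinAlgEquiv' ((algebraMap ℝ ℂ).mapMatrix (LinearMap.toMatrixAlgEquiv' T))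

theorem ext_mul (S T : (Fin 4 → ℝ) →ₗ[ℝ] (Fin 4 → ℝ)) : ext (S * T) = ext S * ext T := by
  simp only [ext, map_mul]

theorem ext_one : ext (1 : (Fin 4 → ℝ) →ₗ[ℝ] (Fin 4 → ℝ)) = 1 := by
  simp only [ext, map_one]

theorem ext_add (S T : (Fin 4 → ℝ) →ₗ[ℝ] (Fin 4 → ℝ)) : ext (S + T) = ext S + ext T := by
  simp only [ext, map_add]

theorem ext_sub (S T : (Fin 4 → ℝ) →ₗ[ℝ] (Fin 4 → ℝ)) : ext (S - T) = ext S - ext T := by
  simp only [ext, map_sub]

theorem ext_smul (c : ℝ) (T : (Fin 4 → ℝ) →ₗ[ℝ] (Fin 4 → ℝ)) : ext (c • T) = (c : ℂ) • ext T := by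
  have h : (algebraMap ℝ ℂ).mapMatrix (LinearMap.toMatrixAlgEquiv' (c • T)) =
      (c : ℂ) • (algebraMap ℝ ℂ).mapMatrix (LinearMap.toMatrixAlgEquiv' T) := by
    ext i j
    simp
  rw [ext, h, map_smul]
  rfl

theorem ext_mA : ext (Matrix.toLin' (mA ℝ)) = Matrix.toLin' (mA ℂ) := by
  have h : (algebraMap ℝ ℂ).mapMatrix (LinearMap.toMatrixAlgEquiv' (Matrix.toLin' (mA ℝ))) =
      mA ℂ := by
    have h1 : LinearMap.toMatrixAlgEquiv' (Matrix.toLin' (mA ℝ)) = mA ℝ :=
      LinearMap.toMatrix'_toLin' (mA ℝ)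
    rw [h1]
    ext i j
    fin_cases i <;> fin_cases j <;> simp [mA]
  rw [ext, h]
  rfl

theorem ext_mB : ext (Matrix.toLin' (mB ℝ)) = Matrix.toLin' (mB ℂ) := by
  have h : (algebraMap ℝ ℂ).mapMatrix (LinearMap.toMatrixAlgEquiv' (Matrix.toLin' (mB ℝ))) =
      mB ℂ := by
    have h1 : LinearMap.toMatrixAlgEquiv' (Matrix.toLin' (mB ℝ)) = mB ℝ :=
      LinearMap.toMatrix'_toLin' (mB ℝ)
    rw [h1]
    ext i j
    fin_cases i <;> fin_cases j <;> simp [mB]
  rw [ext, h]
  rfl

theorem rel_clear {P Q : (Fin 4 → ℝ) →ₗ[ℝ] (Fin 4 → ℝ)}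
    (h : ((2 : ℝ) - 2⁻¹)⁻¹ • ((2 : ℝ) • (P * Q) - (2 : ℝ)⁻¹ • (Q * P)) = 1) (v : Fin 4 → ℂ) :
    (4 : ℂ) • ext P (ext Q v) - ext Q (ext P v) = (3 : ℂ) • v := by
  have h1 : (4 : ℝ) • (P * Q) - Q * P = (3 : ℝ) • 1 := by
    rw [← h, smul_smul, smul_sub, smul_smul, smul_smul]
    norm_num
  have h2 := congrArg ext h1
  rw [ext_sub, ext_smul, ext_smul, ext_mul, ext_mul, ext_one] at h2
  have h3 := LinearMap.congr_fun h2 v
  simpa using h3

/-- **Q1 is false.**  The number `q = 2` is not a root of unity, and there is a Leonard pair on a real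
vector space of dimension four with `β = q ^ 2 + q ^ (-2) = 17 / 4` which is not of the required form
for any irreducible module structure. -/
theorem result : (∀ m : ℕ, 0 < m → (2 : ℝ) ^ m ≠ 1) ∧
    ∃ A B : (Fin 4 → ℝ) →ₗ[ℝ] (Fin 4 → ℝ), IsLeonardPair ((2 : ℝ) ^ 2 + ((2 : ℝ)⁻¹) ^ 2) A B ∧
      ∀ X X' Y Z, IsIrredModule 2 X X' Y Z → IsComb A X Y → IsComb B Y Z → False := by
  refine ⟨?_, Matrix.toLin' (mA ℝ), Matrix.toLin' (mB ℝ), ?_, ?_⟩
  · intro m hm h
    have h1 : (2 : ℕ) ^ m = 1 := by exact_mod_cast h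
    have h2 : 1 < 2 ^ m := Nat.one_lt_two_pow (by omega)
    omega
  · have h : ((2 : ℝ) ^ 2 + ((2 : ℝ)⁻¹) ^ 2) = 17 / 4 := by norm_num
    rw [h]
    exact leonard
  · rintro X X' Y Z ⟨hX1, hX2, hXY, hYZ, hZX, -, -⟩ ⟨a, b, c, d, hA⟩ ⟨a', b', c', d', hB⟩
    let S : Sys (Fin 4 → ℂ) :=
      { X := ext X
        Y := ext Y
        Z := ext Z
        xinj := fun v hv => by
          have h1 := congrArg ext hX2
          rw [ext_mul, ext_one] at h1
          have h2 := LinearMap.congr_fun h1 v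
          rw [Module.End.mul_apply, hv, map_zero, Module.End.one_apply] at h2
          exact h2.symm
        hXY := rel_clear hXY
        hYZ := rel_clear hYZ
        hZX := rel_clear hZX }
    have h := key S a b c d a' b' c' d' (fun v => by
        have h1 := congrArg ext hA
        rw [ext_mA, ext_add, ext_add, ext_add, ext_smul, ext_smul, ext_smul, ext_smul, ext_one,
          ext_mul] at h1
        have h2 := LinearMap.congr_fun h1 v
        rw [Matrix.toLin'_apply] at h2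
        exact h2) (fun v => by
        have h1 := congrArg ext hB
        rw [ext_mB, ext_add, ext_add, ext_add, ext_smul, ext_smul, ext_smul, ext_smul, ext_one,
          ext_mul] at h1
        have h2 := LinearMap.congr_fun h1 v
        rw [Matrix.toLin'_apply] at h2
        exact h2)
    have h1 : d ^ 2 = -256 / 9 := by
      have h2 : ((d ^ 2 : ℝ) : ℂ) = ((-256 / 9 : ℝ) : ℂ) := by
        push_cast
        exact h
      exact Complex.ofReal_injective h2
    have h2 := sq_nonneg d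
    rw [h1] at h2
    norm_num at h2

end Pool.Agent.Results.MP_32472a_al.RealCounterexample
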